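import Pool.Agent.U79.GY.Stm
import Pool.Agent.U115.GE.Loc

/-!
# Project GY, package DSC: the upper bound for the Selmer set of the twist
-/

set_option autoImplicit false
set_option linter.unusedVariables false
set_option linter.unusedSectionVars false

open scoped Classical

namespace Pool.Agent.U255.GY

open Finset hiding ext
open Pool.Agent.Y703.CQ (nr)
open Pool.Agent.U115.GE (Qs ELS SelSet sel RtG lsol_of_qs rt1G no_mG)
open Pool.Agent.U115.TP (LSol)
open Pool.Agent.U79.GY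

/-- the residue symbol of an integer -/
noncomputable def nz (p : ℕ) (n : ℤ) : ZMod 2 := if IsSquare (n : ZMod p) then 0 else 1

theorem nz_nat (p n : ℕ) : nz p (n : ℤ) = nr p n := by
  simp [nz, nr]

theorem nz_mul {p : ℕ} [hp : Fact p.Prime] {m n : ℤ} (hm : (m : ZMod p) ≠ 0)
    (hn : (n : ZMod p) ≠ 0) : nz p (m * n) = nz p m + nz p n := by
  have hmn : ((m * n : ℤ) : ZMod p) ≠ 0 := by push_cast; exact mul_ne_zero hm hn
  have h1 := quadraticChar_one_iff_isSquare hm
  have h2 := quadraticChar_one_iff_isSquare hn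
  have h3 := quadraticChar_one_iff_isSquare hmn
  have h4 : quadraticChar (ZMod p) ((m * n : ℤ) : ZMod p) =
      quadraticChar (ZMod p) (m : ZMod p) * quadraticChar (ZMod p) (n : ZMod p) := by
    push_cast
    rw [map_mul]
  unfold nz
  rw [← h1, ← h2, ← h3, h4]
  rcases quadraticChar_dichotomy hm with a | a <;> rcases quadraticChar_dichotomy hn with b | b <;>
    rw [a, b] <;> norm_num
  decide

theorem ne_of_mem {p : ℕ} [hp : Fact p.Prime] {T : Finset ℕ} (hT : ∀ q ∈ T, q.Prime) (hpT : p ∉ T) :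
    (((∏ q ∈ T, q : ℕ) : ℤ) : ZMod p) ≠ 0 := by
  rw [Int.cast_natCast, Ne, ZMod.natCast_eq_zero_iff, hp.out.prime.dvd_finsetProd_iff]
  rintro ⟨r, hr, hpr⟩
  exact hpT (((Nat.prime_dvd_prime_iff_eq hp.out (hT r hr)).1 hpr) ▸ hr)

theorem nz_prod {p : ℕ} [hp : Fact p.Prime] {T : Finset ℕ} (hT : ∀ q ∈ T, q.Prime) (hpT : p ∉ T) :
    nz p ((∏ q ∈ T, q : ℕ) : ℤ) = ∑ q ∈ T, nr p q := by
  induction T using Finset.induction_on with
  | empty => simp [nz]
  | insert q T hq ih =>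
    have hT' : ∀ r ∈ T, r.Prime := fun r hr => hT r (Finset.mem_insert_of_mem hr)
    have hpT' : p ∉ T := fun h => hpT (Finset.mem_insert_of_mem h)
    have hqp : q.Prime := hT q (Finset.mem_insert_self _ _)
    have hpq : p ≠ q := fun h => hpT (h ▸ Finset.mem_insert_self _ _)
    rw [Finset.prod_insert hq, Finset.sum_insert hq, ← ih hT' hpT', Nat.cast_mul, nz_mul, nz_nat]
    · rw [Int.cast_natCast, Ne, ZMod.natCast_eq_zero_iff, Nat.prime_dvd_prime_iff_eq hp.out hqp]
      exact hpq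
    · exact ne_of_mem hT' hpT'

/-- the split primes dividing `d` -/
noncomputable def dv (P : ℕ → Prop) (S : Finset ℕ) (d : ℤ) : Finset ℕ :=
  S.filter fun p => P p ∧ (p : ℤ) ∣ d

/-- the cofactor -/
noncomputable def uu (P : ℕ → Prop) (S : Finset ℕ) (d : ℤ) : ℤ :=
  d / ((∏ q ∈ dv P S d, q : ℕ) : ℤ)

/-- the indicator function -/
noncomputable def xx (P : ℕ → Prop) (S : Finset ℕ) (d : ℤ) : ℕ → ZMod 2 :=
  fun p => if p ∈ dv P S d then 1 else 0

/-- the correction -/
noncomputable def ff (a b : ℤ) (p : ℕ) : ZMod 2 := if RtG a b p 1 then 1 else 0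

theorem eq_uu (P : ℕ → Prop) (S : Finset ℕ) (hS : ∀ p ∈ S, p.Prime) (d : ℤ) :
    d = ((∏ q ∈ dv P S d, q : ℕ) : ℤ) * uu P S d := by
  have hdvd : ∏ q ∈ dv P S d, q ∣ d.natAbs := by
    refine Finset.prod_primes_dvd _ (fun q hq => (hS q (Finset.mem_filter.1 hq).1).prime)
      fun q hq => ?_
    exact Int.natCast_dvd.1 (Finset.mem_filter.1 hq).2.2
  have h1 : ((∏ q ∈ dv P S d, q : ℕ) : ℤ) ∣ d := Int.natCast_dvd.2 hdvd
  exact (Int.mul_ediv_cancel' h1).symm

section

variable {a b : ℤ} {M : ℕ} {P : ℕ → Prop} {S : Finset ℕ}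

/-- the hypothesis on the set of primes -/
def Hyp (a b : ℤ) (M : ℕ) (P : ℕ → Prop) (S : Finset ℕ) : Prop :=
    ∀ p ∈ S, p.Prime ∧ ¬ p ∣ M ∧
      (P p ∧ IsSquare (b : ZMod p) ∧ IsSquare ((a ^ 2 - 4 * b : ℤ) : ZMod p) ∨
      ¬ P p ∧ ¬ IsSquare (b : ZMod p) ∧ ¬ IsSquare ((a ^ 2 - 4 * b : ℤ) : ZMod p))

theorem sqf_prod (hS : ∀ p ∈ S, p.Prime) : Squarefree (((∏ p ∈ S, p : ℕ) : ℤ)) := by
  rw [Int.squarefree_natCast]
  refine Finset.squarefree_prod_of_pairwise_isCoprime ?_ ?_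
  · intro p hp q hq hpq
    rw [Function.onFun, ← Nat.coprime_iff_isRelPrime]
    exact (Nat.coprime_primes (hS p hp) (hS q hq)).2 hpq
  · intro p hp
    exact (hS p hp).prime.squarefree

theorem dv_not (hS : ∀ p ∈ S, p.Prime) {d : ℤ} (hd : Squarefree d) {p : ℕ} (hp : p ∈ S) (hP : P p) :
    ¬ (p : ℤ) ∣ uu P S d := by
  intro hpu
  have hu := eq_uu P S hS d
  have h1 : (p : ℤ) ∣ d := by rw [hu]; exact hpu.mul_left _
  have h2 : p ∈ dv P S d := Finset.mem_filter.2 ⟨hp, hP, h1⟩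
  have h3 : (p : ℤ) ∣ ((∏ q ∈ dv P S d, q : ℕ) : ℤ) :=
    Int.natCast_dvd_natCast.2 (Finset.dvd_prod_of_mem _ h2)
  have h4 : (p : ℤ) * p ∣ d := by
    rw [hu]
    exact mul_dvd_mul h3 hpu
  exact (Nat.prime_iff_prime_int.1 (hS p hp)).not_isUnit (hd _ h4)

theorem uu_sqf (hS : ∀ p ∈ S, p.Prime) {d : ℤ} (hd : Squarefree d) : Squarefree (uu P S d) := by
  have hu := eq_uu P S hS d
  rw [hu] at hd
  exact hd.of_mul_right

theorem uu_dvd (h : Hyp a b M P S) {d : ℤ} (hd : Squarefree d)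
    (hL : ∀ (l : ℕ) [Fact l.Prime], LSol (a * ((∏ p ∈ S, p : ℕ) : ℤ))
      (b * ((∏ p ∈ S, p : ℕ) : ℤ) ^ 2) d l) {q : ℕ} (hq : q.Prime) (hqu : (q : ℤ) ∣ uu P S d) :
    (q : ℤ) ∣ b := by
  have hS : ∀ p ∈ S, p.Prime := fun p hp => (h p hp).1
  have : Fact q.Prime := ⟨hq⟩
  have hu := eq_uu P S hS d
  have hqd : (q : ℤ) ∣ d := by rw [hu]; exact hqu.mul_left _
  have h2 := (hL q).dvdB hd hqd
  have hqP := Nat.prime_iff_prime_int.1 hq
  rcases hqP.dvd_or_dvd h2 with h3 | h3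
  · exact h3
  · exfalso
    have h4 : (q : ℤ) ∣ ((∏ p ∈ S, p : ℕ) : ℤ) := hqP.dvd_of_dvd_pow h3
    have h5 : q ∣ ∏ p ∈ S, p := Int.natCast_dvd_natCast.1 h4
    rw [hq.prime.dvd_finsetProd_iff] at h5
    obtain ⟨r, hr, hqr⟩ := h5
    have h6 : q = r := (Nat.prime_dvd_prime_iff_eq hq (hS r hr)).1 hqr
    subst h6
    rcases (h q hr).2.2 with ⟨h7, -⟩ | ⟨-, -, h7⟩
    · exact dv_not hS hd hr h7 hqu
    · exact no_mG h7 (hL q) hd (sqf_prod hS) h4 hqd

/-- the row of the matrix -/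
theorem row (hM : Mod b (a ^ 2 - 4 * b) M) (h : Hyp a b M P S) {d : ℤ} (hd : Squarefree d)
    (hL : ∀ (l : ℕ) [Fact l.Prime], LSol (a * ((∏ p ∈ S, p : ℕ) : ℤ))
      (b * ((∏ p ∈ S, p : ℕ) : ℤ) ^ 2) d l) {p : ℕ} (hp : p ∈ S) (hP : P p) :
    ∑ q ∈ S, nr p q * (xx P S d q + xx P S d p) + ff a b p * xx P S d p = nz p (uu P S d) := by
  have hS : ∀ p ∈ S, p.Prime := fun p hp => (h p hp).1
  have hF : Fact p.Prime := ⟨hS p hp⟩
  have hpM := (h p hp).2.1
  have hsq : IsSquare (b : ZMod p) := by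
    rcases (h p hp).2.2 with h7 | h7
    · exact h7.2.1
    · exact absurd hP h7.1
  have hb0 : (b : ZMod p) ≠ 0 := by
    rw [Ne, ZMod.intCast_zmod_eq_zero_iff_dvd]
    intro h8
    exact hpM ((Int.natCast_dvd.1 h8).trans hM.hb)
  have hu := eq_uu P S hS d
  have hu0 : ((uu P S d : ℤ) : ZMod p) ≠ 0 := by
    rw [Ne, ZMod.intCast_zmod_eq_zero_iff_dvd]
    exact dv_not hS hd hp hP
  have hdvS : dv P S d ⊆ S := Finset.filter_subset _ _
  have hTp : ∀ q ∈ dv P S d, q.Prime := fun q hq => hS q (hdvS hq)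
  have hpN : (p : ℤ) ∣ ((∏ p ∈ S, p : ℕ) : ℤ) :=
    Int.natCast_dvd_natCast.2 (Finset.dvd_prod_of_mem _ hp)
  have hsum : ∀ U : Finset ℕ, ∑ q ∈ U, nr p q * xx P S d q = ∑ q ∈ U.filter (· ∈ dv P S d), nr p q := by
    intro U
    rw [Finset.sum_filter]
    refine Finset.sum_congr rfl fun q _ => ?_
    unfold xx
    split_ifs <;> simp
  by_cases hpT : p ∈ dv P S d
  · -- `p ∣ d`
    have hx : xx P S d p = 1 := by simp [xx, hpT]
    set d1 : ℤ := ((∏ q ∈ (dv P S d).erase p, q : ℕ) : ℤ) * uu P S d with hd1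
    have hdd : d = p * d1 := by
      rw [hd1]
      conv_lhs => rw [hu]
      rw [← Finset.mul_prod_erase (dv P S d) (fun q => q) hpT]
      push_cast
      ring
    have hMM : ((∏ p ∈ S, p : ℕ) : ℤ) = p * (((∏ q ∈ S.erase p, q : ℕ) : ℤ) * ((1 : ℕ) : ℤ)) := by
      rw [← Finset.mul_prod_erase S (fun q => q) hp]
      push_cast
      ring
    have key := rt1G hsq hb0 (hL p) hd (sqf_prod hS) hMM hdd
    have hz : nz p (d1 * ((∏ q ∈ S.erase p, q : ℕ) : ℤ)) = ff a b p := by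
      unfold nz ff
      have e : ((d1 * ((∏ q ∈ S.erase p, q : ℕ) : ℤ) : ℤ) : ZMod p) =
          (d1 : ZMod p) * ((∏ q ∈ S.erase p, q : ℕ) : ZMod p) := by
        push_cast
        rfl
      rw [e]
      by_cases h1 : IsSquare ((d1 : ZMod p) * ((∏ q ∈ S.erase p, q : ℕ) : ZMod p))
      · have h2 : ¬ RtG a b p 1 := fun h3 => key (iff_of_true h1 h3)
        rw [if_pos h1, if_neg h2]
      · have h2 : RtG a b p 1 := by
          by_contra h3
          exact key (iff_of_false h1 h3)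
        rw [if_neg h1, if_pos h2]
    have hne1 : (((∏ q ∈ (dv P S d).erase p, q : ℕ) : ℤ) : ZMod p) ≠ 0 :=
      ne_of_mem (fun q hq => hTp q (Finset.mem_of_mem_erase hq)) (Finset.notMem_erase p _)
    have hne2 : (((∏ q ∈ S.erase p, q : ℕ) : ℤ) : ZMod p) ≠ 0 :=
      ne_of_mem (fun q hq => hS q (Finset.mem_of_mem_erase hq)) (Finset.notMem_erase p _)
    have hne3 : ((d1 : ℤ) : ZMod p) ≠ 0 := by
      rw [hd1]; push_cast
      push_cast at hne1
      exact mul_ne_zero hne1 hu0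
    rw [nz_mul hne3 hne2, hd1, nz_mul hne1 hu0,
      nz_prod (fun q hq => hTp q (Finset.mem_of_mem_erase hq)) (Finset.notMem_erase p _),
      nz_prod (fun q hq => hS q (Finset.mem_of_mem_erase hq)) (Finset.notMem_erase p _)] at hz
    have e1 : ∑ q ∈ S, nr p q * (xx P S d q + xx P S d p) =
        ∑ q ∈ S.erase p, nr p q * xx P S d q + ∑ q ∈ S.erase p, nr p q := by
      rw [← Finset.add_sum_erase S _ hp, hx, ← Finset.sum_add_distrib]
      rw [show (1 : ZMod 2) + 1 = 0 by decide, mul_zero, zero_add]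
      refine Finset.sum_congr rfl fun q _ => ?_
      ring
    have e2 : (S.erase p).filter (· ∈ dv P S d) = (dv P S d).erase p := by
      ext q
      simp only [Finset.mem_filter, Finset.mem_erase]
      constructor
      · rintro ⟨⟨h1, -⟩, h2⟩
        exact ⟨h1, h2⟩
      · rintro ⟨h1, h2⟩
        exact ⟨⟨h1, hdvS h2⟩, h2⟩
    rw [e1, hsum, e2, hx, mul_one, ← hz]
    generalize ∑ q ∈ (dv P S d).erase p, nr p q = A
    generalize ∑ q ∈ S.erase p, nr p q = B
    generalize nz p (uu P S d) = C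
    revert A B C
    decide
  · -- `p ∤ d`
    have hx : xx P S d p = 0 := by simp [xx, hpT]
    have hpd : ¬ (p : ℤ) ∣ d := fun h9 => hpT (Finset.mem_filter.2 ⟨hp, hP, h9⟩)
    obtain ⟨β, hβ⟩ := hsq
    have key := (hL p).sq (sqf_prod hS) hpd hpN (b := β) (by rw [hβ]; ring)
        (by rintro rfl; apply hb0; rw [hβ]; ring)
    have hz : nz p d = 0 := by
      unfold nz
      rw [if_pos key]
    have hne1 : (((∏ q ∈ (dv P S d), q : ℕ) : ℤ) : ZMod p) ≠ 0 := ne_of_mem hTp hpT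
    rw [hu, nz_mul hne1 hu0, nz_prod hTp hpT] at hz
    have e2 : S.filter (· ∈ dv P S d) = dv P S d := by
      ext q
      simp only [Finset.mem_filter]
      exact ⟨fun h1 => h1.2, fun h1 => ⟨hdvS h1, h1⟩⟩
    rw [hx]
    simp only [add_zero, mul_zero]
    rw [hsum, e2]
    generalize ∑ q ∈ dv P S d, nr p q = A at hz ⊢
    generalize nz p (uu P S d) = C at hz ⊢
    revert A C
    decide

/-- the solutions, as a type -/
abbrev Ker (P : ℕ → Prop) (f : ℕ → ZMod 2) (S : Finset ℕ) : Type :=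
  {x : ℕ → ZMod 2 // (∀ p, ¬ (p ∈ S ∧ P p) → x p = 0) ∧ SolP P f S x}

instance finKer (P : ℕ → Prop) (f : ℕ → ZMod 2) (S : Finset ℕ) : Finite (Ker P f S) := by
  refine Finite.of_injective (fun x : Ker P f S => fun s : S => x.1 s) fun x y hxy => ?_
  apply Subtype.ext
  funext p
  by_cases hp : p ∈ S
  · exact congrFun hxy ⟨p, hp⟩
  · rw [x.2.1 p (fun h => hp h.1), y.2.1 p (fun h => hp h.1)]

theorem xx_zero {d : ℤ} {p : ℕ} (hp : ¬ (p ∈ S ∧ P p)) : xx P S d p = 0 := by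
  unfold xx
  rw [if_neg]
  intro h
  have h1 := Finset.mem_filter.1 h
  exact hp ⟨h1.1, h1.2.1⟩

theorem dv_eq {d d' : ℤ} (h : xx P S d = xx P S d') : dv P S d = dv P S d' := by
  ext p
  have h1 := congrFun h p
  unfold xx at h1
  by_cases h2 : p ∈ dv P S d <;> by_cases h3 : p ∈ dv P S d' <;> simp_all

/-- the sign and the prime factors determine a squarefree number -/
theorem eq_of_key {u v : ℤ} (hu : Squarefree u) (hv : Squarefree v) (h1 : (0 < u) ↔ (0 < v))
    (h2 : u.natAbs.primeFactors = v.natAbs.primeFactors) : u = v := by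
  have hu' : Squarefree u.natAbs := Int.squarefree_natAbs.2 hu
  have hv' : Squarefree v.natAbs := Int.squarefree_natAbs.2 hv
  have e1 := Nat.prod_primeFactors_of_squarefree hu'
  have e2 := Nat.prod_primeFactors_of_squarefree hv'
  rw [h2, e2] at e1
  have hu0 := hu.ne_zero
  have hv0 := hv.ne_zero
  omega

/-- the bound for finite sets -/
theorem bound (hb0 : b ≠ 0) (hM : Mod b (a ^ 2 - 4 * b) M) (h : Hyp a b M P S) (A : Finset ℤ)
    (hA : ∀ d ∈ A, Squarefree d ∧ ∀ (l : ℕ) [Fact l.Prime], LSol (a * ((∏ p ∈ S, p : ℕ) : ℤ))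
      (b * ((∏ p ∈ S, p : ℕ) : ℤ) ^ 2) d l) :
    A.card ≤ 2 ^ (M.primeFactors.card + 1) * nkP P (ff a b) S := by
  have hS : ∀ p ∈ S, p.Prime := fun p hp => (h p hp).1
  let key : ℤ → Bool × Finset ℕ := fun d => (decide (0 < uu P S d), (uu P S d).natAbs.primeFactors)
  have hmaps : ∀ d ∈ A, key d ∈ (univ : Finset Bool) ×ˢ M.primeFactors.powerset := by
    intro d hd
    obtain ⟨h1, h2⟩ := hA d hd
    rw [Finset.mem_product]
    refine ⟨Finset.mem_univ _, Finset.mem_powerset.2 fun q hq => ?_⟩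
    have hqp := Nat.prime_of_mem_primeFactors hq
    have hqd := Nat.dvd_of_mem_primeFactors hq
    have h3 : (q : ℤ) ∣ b := uu_dvd h h1 h2 hqp (Int.natCast_dvd.2 hqd)
    exact Nat.mem_primeFactors.2 ⟨hqp, (Int.natCast_dvd.1 h3).trans hM.hb, hM.pos.ne'⟩
  have hcard : ((univ : Finset Bool) ×ˢ M.primeFactors.powerset).card =
      2 ^ (M.primeFactors.card + 1) := by
    rw [Finset.card_product, Finset.card_powerset, Finset.card_univ, Fintype.card_bool, pow_succ]
    ring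
  have hfib : ∀ κ ∈ (univ : Finset Bool) ×ˢ M.primeFactors.powerset,
      (A.filter fun d => key d = κ).card ≤ nkP P (ff a b) S := by
    intro κ _
    rcases (A.filter fun d => key d = κ).eq_empty_or_nonempty with h0 | ⟨d0, hd0⟩
    · rw [h0, Finset.card_empty]
      exact Nat.zero_le _
    · obtain ⟨hd0A, hd0k⟩ := Finset.mem_filter.1 hd0
      have huu : ∀ d ∈ A.filter (fun d => key d = κ), uu P S d = uu P S d0 := by
        intro d hd
        obtain ⟨hdA, hdk⟩ := Finset.mem_filter.1 hd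
        have hk : key d = key d0 := hdk.trans hd0k.symm
        have hk1 : decide (0 < uu P S d) = decide (0 < uu P S d0) := congrArg Prod.fst hk
        have hk2 : (uu P S d).natAbs.primeFactors = (uu P S d0).natAbs.primeFactors :=
          congrArg Prod.snd hk
        exact eq_of_key (uu_sqf hS (hA d hdA).1) (uu_sqf hS (hA d0 hd0A).1)
          (decide_eq_decide.1 hk1) hk2
      have hsol : ∀ d ∈ A.filter (fun d => key d = κ),
          (∀ p, ¬ (p ∈ S ∧ P p) → (xx P S d + xx P S d0) p = 0) ∧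
            SolP P (ff a b) S (xx P S d + xx P S d0) := by
        intro d hd
        obtain ⟨hdA, hdk⟩ := Finset.mem_filter.1 hd
        refine ⟨fun p hp => ?_, fun p hp hP => ?_⟩
        · rw [Pi.add_apply, xx_zero hp, xx_zero hp, add_zero]
        · have r1 := row hM h (hA d hdA).1 (hA d hdA).2 hp hP
          have r2 := row hM h (hA d0 hd0A).1 (hA d0 hd0A).2 hp hP
          rw [huu d hd] at r1
          have e : ∑ q ∈ S, nr p q * ((xx P S d + xx P S d0) q + (xx P S d + xx P S d0) p) =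
              ∑ q ∈ S, nr p q * (xx P S d q + xx P S d p) +
              ∑ q ∈ S, nr p q * (xx P S d0 q + xx P S d0 p) := by
            rw [← Finset.sum_add_distrib]
            refine Finset.sum_congr rfl fun q _ => ?_
            simp only [Pi.add_apply]
            ring
          rw [e, Pi.add_apply, mul_add]
          have e3 : ∀ A B C D E : ZMod 2, A + C = E → B + D = E → A + B + (C + D) = 0 := by decide
          exact e3 _ _ _ _ _ r1 r2
      have hinj : Function.Injective (fun d : (A.filter fun d => key d = κ) =>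
          (⟨xx P S d.1 + xx P S d0, hsol d.1 d.2⟩ : Ker P (ff a b) S)) := by
        intro d d' hdd
        have h1 : xx P S d.1 + xx P S d0 = xx P S d'.1 + xx P S d0 := congrArg Subtype.val hdd
        have h2 : xx P S d.1 = xx P S d'.1 := add_right_cancel h1
        have h3 := dv_eq h2
        apply Subtype.ext
        rw [eq_uu P S hS d.1, eq_uu P S hS d'.1, h3, huu _ d.2, huu _ d'.2]
      have hc := Nat.card_le_card_of_injective _ hinj
      rw [Nat.card_eq_fintype_card, Fintype.card_coe] at hc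
      exact hc
  have hfin := Finset.card_le_mul_card_image_of_maps_to hmaps _ hfib
  rw [hcard, mul_comm] at hfin
  exact hfin

end

theorem t_DSC : S_DSC := by
  intro a b M hM hb hc
  refine ⟨ff a b, fun P S h => ?_⟩
  unfold sel
  by_cases hfin : (SelSet (a * ((∏ p ∈ S, p : ℕ) : ℤ)) (b * ((∏ p ∈ S, p : ℕ) : ℤ) ^ 2)).Finite
  · rw [Set.ncard_eq_toFinset_card _ hfin]
    refine bound hb hM h _ fun d hd => ?_
    rw [Set.Finite.mem_toFinset] at hd
    exact ⟨hd.1, fun l _ => lsol_of_qs hd.1 (hd.2.2 l)⟩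
  · rw [Set.Infinite.ncard hfin]
    exact Nat.zero_le _

end Pool.Agent.U255.GY
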